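import Pool.Agent.Helper48.MG.Stmt
import Pool.Agent.Helper48.MG.Arith

/-!
# MG-T1: the typed form of AD follows from AD in the model
-/

set_option autoImplicit false

namespace Pool.Agent.Helper48.MG

variable {M : Type} [ZFM M]
variable {α β γ δ : Type} [Cl M α] [Cl M β] [Cl M γ] [Cl M δ]

namespace T1

/-! ### the natural numbers as sets of the model -/

theorem mem_codN {n : N M} {z : M} : isin z (cod M n) ↔ ∃ k : N M, k < n ∧ cod M k = z := by
  constructor
  · intro h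
    have h' : isin z n.1.val := h
    have hz : IsOrd z := n.1.ord.of_mem h'
    exact ⟨⟨⟨z, hz⟩, lt_trans (a := (⟨z, hz⟩ : Ord M)) h' n.2⟩, h', rfl⟩
  · rintro ⟨k, hk, rfl⟩
    exact hk

theorem mem_om {z : M} : isin z (om M).val ↔ ∃ k : N M, cod M k = z := by
  constructor
  · intro h
    have hz : IsOrd z := (om M).ord.of_mem h
    exact ⟨⟨⟨z, hz⟩, h⟩, rfl⟩
  · rintro ⟨k, rfl⟩
    exact k.2

theorem isEmp_iff {z : M} : IsEmp ZFM.E z ↔ z = cod M (0 : N M) := by
  constructor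
  · intro h
    refine mem_ext fun x => ⟨fun hx => (h x hx).elim, fun hx => ?_⟩
    obtain ⟨k, hk, _⟩ := mem_codN.1 hx
    exact (N.not_lt_zero k hk).elim
  · rintro rfl x hx
    obtain ⟨k, hk, _⟩ := mem_codN.1 hx
    exact N.not_lt_zero k hk

theorem isSuc_iff {z : M} {n : N M} : IsSuc ZFM.E z (cod M n) ↔ z = cod M (sc n) := by
  have key : IsSuc ZFM.E (cod M (sc n)) (cod M n) := by
    intro x
    constructor
    · intro hx
      obtain ⟨k, hk, rfl⟩ := mem_codN.1 hx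
      rcases lt_or_eq_of_le (N.lt_sc.1 hk) with h | rfl
      · exact Or.inl (mem_codN.2 ⟨k, h, rfl⟩)
      · exact Or.inr rfl
    · rintro (hx | rfl)
      · obtain ⟨k, hk, rfl⟩ := mem_codN.1 hx
        exact mem_codN.2 ⟨k, hk.trans (N.lt_sc_self n), rfl⟩
      · exact mem_codN.2 ⟨n, N.lt_sc_self n, rfl⟩
  constructor
  · intro h
    exact mem_ext fun x => (h x).trans (key x).symm
  · rintro rfl
    exact key

theorem isOmega_om : IsOmega (ZFM.E (M := M)) (om M).val := by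
  refine ⟨⟨⟨cod M (0 : N M), isEmp_iff.2 rfl, mem_om.2 ⟨0, rfl⟩⟩, ?_⟩, ?_⟩
  · intro x hx
    obtain ⟨n, rfl⟩ := mem_om.1 hx
    exact ⟨cod M (sc n), isSuc_iff.2 rfl, mem_om.2 ⟨_, rfl⟩⟩
  · rintro s ⟨⟨e, he, hes⟩, hs⟩ x hx
    obtain ⟨n, rfl⟩ := mem_om.1 hx
    refine N.ind (fun n : N M => isin (Cl.code n : M) s) (by fun_prop) ?_ ?_ n
    · rw [isEmp_iff.1 he] at hes
      exact hes
    · intro n hn
      obtain ⟨y, hy, hys⟩ := hs _ hn
      rw [isSuc_iff.1 hy] at hys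
      exact hys

/-! ### pairs and functions -/

theorem isUPair_iff {z x y : M} : IsUPair ZFM.E z x y ↔ z = upair x y := by
  constructor
  · intro h
    exact mem_ext fun t => (h t).trans mem_upair.symm
  · rintro rfl t
    exact mem_upair

theorem isOPair_iff {z x y : M} : IsOPair ZFM.E z x y ↔ z = opair x y := by
  constructor
  · intro h
    refine mem_ext fun t => (h t).trans ?_
    rw [isUPair_iff, isUPair_iff]
    exact mem_upair.symm
  · rintro rfl t
    rw [isUPair_iff, isUPair_iff]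
    exact mem_upair

theorem apl_graph [Ob M α] {f : IFun M α β} {x y : M} :
    Apl ZFM.E (graph f) x y ↔ ∃ a, cod M a = x ∧ cod M (f a) = y := by
  constructor
  · rintro ⟨z, hz, hzf⟩
    rw [isOPair_iff] at hz
    obtain ⟨a, ha⟩ := (mem_graph f z).1 hzf
    rw [hz] at ha
    obtain ⟨h1, h2⟩ := opair_inj ha
    exact ⟨a, h1, h2⟩
  · rintro ⟨a, rfl, rfl⟩
    exact ⟨_, isOPair_iff.2 rfl, (mem_graph f _).2 ⟨a, rfl⟩⟩

theorem isFn_graph (z : Re M) : IsFn ZFM.E (graph z) (om M).val (om M).val := by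
  constructor
  · intro t ht
    obtain ⟨a, rfl⟩ := (mem_graph z t).1 ht
    exact ⟨_, _, mem_om.2 ⟨a, rfl⟩, mem_om.2 ⟨z a, rfl⟩, isOPair_iff.2 rfl⟩
  · intro x hx
    obtain ⟨n, rfl⟩ := mem_om.1 hx
    refine ⟨cod M (z n), apl_graph.2 ⟨n, rfl, rfl⟩, ?_⟩
    intro y hy
    obtain ⟨a, ha, rfl⟩ := apl_graph.1 hy
    rw [Cl.inj ha]

/-! ### doubling -/

theorem exists_dbl : ∃ f : N M → N M, IF M f ∧ f 0 = 0 ∧ ∀ n, f (sc n) = sc (sc (f n)) := by
  obtain ⟨f, hf, h0, hs⟩ := N.exists_rec (M := M) (γ := Unit) (β := N M) (fun _ => 0)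
    (fun _ _ x => sc (sc x)) (by fun_prop) (by fun_prop)
  exact ⟨fun n => f () n, hf.comp (g := fun n : N M => ((), n)) (by fun_prop), h0 (), hs ()⟩

noncomputable def dbl (n : N M) : N M := Classical.choose (exists_dbl (M := M)) n

@[fun_prop] theorem IF.dbl {f : α → N M} (hf : IF M f) : IF M (fun x => dbl (f x)) :=
  (Classical.choose_spec (exists_dbl (M := M))).1.comp hf

theorem dbl_zero : dbl (0 : N M) = 0 := (Classical.choose_spec (exists_dbl (M := M))).2.1
theorem dbl_sc (n : N M) : dbl (sc n) = sc (sc (dbl n)) :=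
  (Classical.choose_spec (exists_dbl (M := M))).2.2 n

theorem dbl_lt : ∀ n j : N M, j < n → dbl j < dbl n := by
  refine N.ind _ (by fun_prop) ?_ ?_
  · intro j hj
    exact (N.not_lt_zero j hj).elim
  · intro n ih j hj
    rw [dbl_sc]
    have h1 : dbl n < sc (sc (dbl n)) := (N.lt_sc_self _).trans (N.lt_sc_self _)
    rcases lt_or_eq_of_le (N.lt_sc.1 hj) with h | rfl
    · exact (ih j h).trans h1
    · exact h1

theorem lt_of_dbl_lt {n j : N M} (h : dbl j < dbl n) : j < n := by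
  by_contra hn
  rcases lt_or_eq_of_le (not_lt.1 hn) with h1 | h1
  · exact lt_asymm h (dbl_lt _ _ h1)
  · rw [h1] at h
    exact lt_irrefl _ h

theorem dbl_inj {n j : N M} (h : dbl j = dbl n) : j = n := by
  rcases lt_trichotomy j n with h1 | h1 | h1
  · exact absurd h (dbl_lt _ _ h1).ne
  · exact h1
  · exact absurd h (dbl_lt _ _ h1).ne'

theorem sc_dbl_ne : ∀ k j : N M, sc (dbl k) ≠ dbl j := by
  refine N.ind _ (by fun_prop) ?_ ?_
  · intro j h
    rw [dbl_zero] at h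
    rcases N.zero_or_sc j with rfl | ⟨m, rfl⟩
    · rw [dbl_zero] at h
      exact N.sc_ne_zero _ h
    · rw [dbl_sc] at h
      exact N.sc_ne_zero _ (N.sc_inj h).symm
  · intro k ih j h
    rw [dbl_sc] at h
    rcases N.zero_or_sc j with rfl | ⟨m, rfl⟩
    · rw [dbl_zero] at h
      exact N.sc_ne_zero _ h
    · rw [dbl_sc] at h
      exact ih m (N.sc_inj (N.sc_inj h))

theorem parity : ∀ n : N M, ∃ k, n = dbl k ∨ n = sc (dbl k) := by
  refine N.ind _ (by fun_prop) ?_ ?_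
  · exact ⟨0, Or.inl dbl_zero.symm⟩
  · rintro n ⟨k, rfl | rfl⟩
    · exact ⟨k, Or.inr rfl⟩
    · exact ⟨sc k, Or.inl (dbl_sc k).symm⟩

theorem isEvn_dbl (k : N M) : IsEvn ZFM.E (cod M (dbl k)) := by
  intro s h0 hs
  refine N.ind (fun k : N M => isin (Cl.code (dbl k) : M) s) (by fun_prop) ?_ ?_ k
  · rw [dbl_zero]
    exact h0 _ (isEmp_iff.2 rfl)
  · intro n hn
    rw [dbl_sc]
    exact hs _ _ _ hn (isSuc_iff.2 rfl) (isSuc_iff.2 rfl)

theorem not_isEvn (k : N M) : ¬ IsEvn ZFM.E (cod M (sc (dbl k))) := by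
  intro h
  obtain ⟨s, hs⟩ := IF.isSet_range (M := M) (f := fun k : N M => (Cl.code (dbl k) : M))
    (by fun_prop)
  have := h s ?_ ?_
  · obtain ⟨j, hj⟩ := (hs _).1 this
    exact sc_dbl_ne k j (Cl.inj hj).symm
  · intro e he
    rw [isEmp_iff.1 he]
    exact (hs _).2 ⟨0, by rw [dbl_zero]⟩
  · intro a a' a'' ha h1 h2
    obtain ⟨j, rfl⟩ := (hs _).1 ha
    rw [isSuc_iff.1 h1] at h2
    rw [isSuc_iff.1 h2]
    exact (hs _).2 ⟨sc j, by rw [dbl_sc]⟩

/-! ### merging two reals -/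

theorem exists_mg : ∃ f : (Re M × Re M) × N M → N M, IF M f ∧
    ∀ q k, (q.2 = dbl k → f q = q.1.1 k) ∧ (q.2 = sc (dbl k) → f q = q.1.2 k) := by
  obtain ⟨f, hf, hf'⟩ := exists_of_unique (M := M) (α := (Re M × Re M) × N M) (β := N M)
    (p := fun q v => ∃ k, (q.2 = dbl k ∧ v = q.1.1 k) ∨ (q.2 = sc (dbl k) ∧ v = q.1.2 k))
    (by fun_prop) (by
      intro q
      obtain ⟨k, hk | hk⟩ := parity q.2
      · refine ⟨q.1.1 k, ⟨k, Or.inl ⟨hk, rfl⟩⟩, ?_⟩
        rintro v ⟨j, ⟨hj, hv⟩ | ⟨hj, hv⟩⟩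
        · rw [hk] at hj
          rw [hv, dbl_inj hj]
        · rw [hk] at hj
          exact (sc_dbl_ne _ _ hj.symm).elim
      · refine ⟨q.1.2 k, ⟨k, Or.inr ⟨hk, rfl⟩⟩, ?_⟩
        rintro v ⟨j, ⟨hj, hv⟩ | ⟨hj, hv⟩⟩
        · rw [hk] at hj
          exact (sc_dbl_ne _ _ hj).elim
        · rw [hk] at hj
          rw [hv, dbl_inj (N.sc_inj hj)])
  refine ⟨f, hf, fun q k => ⟨fun hq => ?_, fun hq => ?_⟩⟩
  · obtain ⟨j, ⟨hj, hv⟩ | ⟨hj, hv⟩⟩ := hf' q
    · rw [hq] at hj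
      rw [hv, dbl_inj hj]
    · rw [hq] at hj
      exact (sc_dbl_ne _ _ hj.symm).elim
  · obtain ⟨j, ⟨hj, hv⟩ | ⟨hj, hv⟩⟩ := hf' q
    · rw [hq] at hj
      exact (sc_dbl_ne _ _ hj).elim
    · rw [hq] at hj
      rw [hv, dbl_inj (N.sc_inj hj)]

/-- the even moves -/
noncomputable def ev (z : Re M) : Re M := lam (fun n => z.toFun (dbl n)) (by fun_prop)

/-- the odd moves -/
noncomputable def od (z : Re M) : Re M := lam (fun n => z.toFun (sc (dbl n))) (by fun_prop)

@[fun_prop] theorem IF.ev {f : α → Re M} (hf : IF M f) : IF M (fun x => ev (f x)) := by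
  unfold T1.ev; fun_prop

@[fun_prop] theorem IF.od {f : α → Re M} (hf : IF M f) : IF M (fun x => od (f x)) := by
  unfold T1.od; fun_prop

/-- the play with the moves `x` of the first player and `y` of the second player -/
noncomputable def mg (x y : Re M) : Re M :=
  lam (fun n => Classical.choose (exists_mg (M := M)) ((x, y), n))
    ((Classical.choose_spec (exists_mg (M := M))).1.comp (g := fun n : N M => ((x, y), n))
      (by fun_prop))

@[fun_prop] theorem IF.mg {f g : α → Re M} (hf : IF M f) (hg : IF M g) :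
    IF M (fun x => mg (f x) (g x)) := by
  unfold T1.mg
  refine IF.lam ?_
  exact (Classical.choose_spec (exists_mg (M := M))).1.comp
    (g := fun q : α × N M => ((f q.1, g q.1), q.2)) (by fun_prop)

theorem mg_dbl (x y : Re M) (k : N M) : (mg x y).toFun (dbl k) = x k :=
  ((Classical.choose_spec (exists_mg (M := M))).2 ((x, y), dbl k) k).1 rfl

theorem mg_sc (x y : Re M) (k : N M) : (mg x y).toFun (sc (dbl k)) = y k :=
  ((Classical.choose_spec (exists_mg (M := M))).2 ((x, y), sc (dbl k)) k).2 rfl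

theorem mg_loc {x x' y y' : Re M} {n : N M} (hx : ∀ k, k < n → x k = x' k)
    (hy : ∀ k, k < n → y k = y' k) :
    ∀ k, k < dbl n → (mg x y).toFun k = (mg x' y').toFun k := by
  intro k hk
  obtain ⟨j, rfl | rfl⟩ := parity k
  · rw [mg_dbl, mg_dbl]
    exact hx j (lt_of_dbl_lt hk)
  · rw [mg_sc, mg_sc]
    exact hy j (lt_of_dbl_lt ((N.lt_sc_self _).trans hk))

theorem mg_loc' {x x' y y' : Re M} {n : N M} (hx : ∀ k, k < sc n → x k = x' k)
    (hy : ∀ k, k < n → y k = y' k) :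
    ∀ k, k < sc (dbl n) → (mg x y).toFun k = (mg x' y').toFun k := by
  intro k hk
  obtain ⟨j, rfl | rfl⟩ := parity k
  · rw [mg_dbl, mg_dbl]
    refine hx j (N.lt_sc.2 ?_)
    by_contra hn
    exact not_lt.2 (N.lt_sc.1 hk) (dbl_lt _ _ (not_le.1 hn))
  · rw [mg_sc, mg_sc]
    exact hy j (lt_of_dbl_lt (N.sc_lt_sc.1 hk))

/-! ### recursion along a game -/

theorem rec_sol (G : Re M × Re M × N M → N M) (hG : IF M G)
    (loc : ∀ (u u' v : Re M) (n : N M), (∀ k, k < n → u k = u' k) → G (u, v, n) = G (u', v, n)) :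
    ∃ S : Re M → Re M, IF M S ∧ ∀ v n, (S v).toFun n = G (S v, v, n) := by
  classical
  obtain ⟨X, hX, hX0, hXs⟩ := N.exists_rec (M := M) (γ := Re M) (β := Re M)
    (fun _ => lam (fun _ => (0 : N M)) (by fun_prop))
    (fun v n u => lam (fun k => if k = n then G (u, v, n) else u k)
      (by
        have h1 : IF M (fun k : N M => G (u, v, n)) := IF.const _
        fun_prop))
    (by fun_prop)
    (by
      refine IF.lam ?_
      have h1 : IF M (fun q : (Re M × N M × Re M) × N M => G (q.1.2.2, q.1.1, q.1.2.1)) :=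
        hG.comp (g := fun q : (Re M × N M × Re M) × N M => (q.1.2.2, q.1.1, q.1.2.1))
          (by fun_prop)
      fun_prop)
  have hS : IF M (fun q : Re M × N M => G (X q.1 q.2, q.1, q.2)) :=
    hG.comp (g := fun q : Re M × N M => (X q.1 q.2, q.1, q.2)) (by fun_prop)
  have hSv : ∀ v, IF M (fun n : N M => G (X v n, v, n)) := fun v =>
    hS.comp (g := fun n : N M => (v, n)) (by fun_prop)
  refine ⟨fun v => lam (fun n => G (X v n, v, n)) (hSv v), IF.lam hS, ?_⟩
  intro v n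
  have hXv : IF M (fun n : N M => X v n) := hX.comp (g := fun n : N M => (v, n)) (by fun_prop)
  have hSv' := hSv v
  have key : ∀ n k : N M, k < n → (X v n).toFun k = G (X v k, v, k) := by
    refine N.ind _ (by fun_prop) ?_ ?_
    · intro k hk
      exact (N.not_lt_zero k hk).elim
    · intro n ih k hk
      rw [hXs]
      show (if k = n then G (X v n, v, n) else (X v n).toFun k) = _
      by_cases hkn : k = n
      · rw [if_pos hkn, hkn]
      · rw [if_neg hkn]
        exact ih k (lt_of_le_of_ne (N.lt_sc.1 hk) hkn)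
  exact loc _ _ _ _ (fun k hk => key n k hk)

theorem sol_loc {G : Re M × Re M × N M → N M} {S : Re M → Re M}
    (hS : ∀ v n, (S v).toFun n = G (S v, v, n)) (c : N M → N M) (hci : IF M c)
    (hcm : ∀ n, c n ≤ c (sc n))
    (loc : ∀ (u u' v v' : Re M) (n : N M), (∀ k, k < n → u k = u' k) →
      (∀ k, k < c n → v k = v' k) → G (u, v, n) = G (u', v', n)) (v v' : Re M) :
    ∀ n : N M, (∀ k, k < c n → v k = v' k) → (S v).toFun n = (S v').toFun n := by
  have key : ∀ m : N M, (∀ k, k < c m → v k = v' k) → ∀ n, n ≤ m →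
      (S v).toFun n = (S v').toFun n := by
    refine N.ind _ (by fun_prop) ?_ ?_
    · intro h n hn
      have hn0 : n = 0 := le_antisymm hn (N.zero_le n)
      rw [hn0, hS v, hS v']
      exact loc _ _ _ _ _ (fun k hk => (N.not_lt_zero k hk).elim) h
    · intro m ih h n hn
      have h' : ∀ k, k < c m → v k = v' k := fun k hk => h k (lt_of_lt_of_le hk (hcm m))
      rcases lt_or_eq_of_le hn with h1 | h1
      · exact ih h' n (N.lt_sc.1 h1)
      · rw [h1, hS v, hS v']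
        exact loc _ _ _ _ _ (fun k hk => ih h' k (N.lt_sc.1 hk)) h
  exact fun n hn => key n hn n le_rfl

theorem code (S : Re M → Re M) (hS : IF M S) (c : N M → N M) (hci : IF M c)
    (hinj : ∀ n m, c n = c m → n = m)
    (loc : ∀ (v v' : Re M) (n : N M), (∀ k, k < c n → v k = v' k) →
      (S v).toFun n = (S v').toFun n) :
    ∃ σ : Re M, ∀ v n, σ (cd v (c n)) = (S v).toFun n := by
  obtain ⟨f, hf, hf'⟩ := exists_of_unique (M := M) (α := N M) (β := N M)
    (p := fun a b => (∃ v n, a = cd v (c n) ∧ b = (S v).toFun n) ∨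
      ((¬ ∃ (v : Re M) (n : N M), a = cd v (c n)) ∧ b = 0))
    (by fun_prop) (by
      intro a
      by_cases h : ∃ (v : Re M) (n : N M), a = cd v (c n)
      · obtain ⟨v, n, rfl⟩ := h
        refine ⟨(S v).toFun n, Or.inl ⟨v, n, rfl, rfl⟩, ?_⟩
        rintro b (⟨v', n', h1, h2⟩ | h)
        · obtain ⟨h3, h4⟩ := cd_eq_iff.1 h1
          have h5 := hinj _ _ h3
          subst h5
          rw [h2]
          exact (loc _ _ _ h4).symm
        · exact (h.1 ⟨v, n, rfl⟩).elim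
      · refine ⟨0, Or.inr ⟨h, rfl⟩, ?_⟩
        rintro b (⟨v', n', h1, h2⟩ | h')
        · exact (h ⟨v', n', h1⟩).elim
        · exact h'.2)
  refine ⟨⟨f, hf⟩, fun v n => ?_⟩
  rcases hf' (cd v (c n)) with ⟨v', n', h1, h2⟩ | h
  · obtain ⟨h3, h4⟩ := cd_eq_iff.1 h1
    have h5 := hinj _ _ h3
    subst h5
    show f (cd v (c n)) = _
    rw [h2]
    exact (loc _ _ _ h4).symm
  · exact (h.1 ⟨v, n, rfl⟩).elim

/-! ### strategies in the model -/

theorem exists_restr (z : M) (n : M) : ∃ q : M, IsRestr ZFM.E q z n := by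
  have h1 : IF M (fun t : M => ∃ k v, isin k n ∧ t = opair k v) := by fun_prop
  have h2 : D1 (fun t : M => ∃ k v, isin k n ∧ IsOPair ZFM.E t k v) := by
    refine (IF_prop_iff.1 h1).congr fun x => ?_
    constructor
    · rintro ⟨k, v, h, h'⟩
      exact ⟨x, rfl, k, v, h, isOPair_iff.1 h'⟩
    · rintro ⟨a, ha, k, v, h, h'⟩
      have ha' : a = x := ha
      subst ha'
      exact ⟨k, v, h, isOPair_iff.2 h'⟩
  obtain ⟨b, hb⟩ := IsSet.sep h2 z
  exact ⟨b, hb⟩

theorem restr_unique {z n q q' : M} (h : IsRestr ZFM.E q z n) (h' : IsRestr ZFM.E q' z n) :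
    q = q' := mem_ext fun t => (h t).trans (h' t).symm

theorem restr_mem {z : Re M} {n : N M} {q : M} (h : IsRestr ZFM.E q (graph z) (cod M n)) (t : M) :
    isin t q ↔ ∃ k, k < n ∧ t = opair (cod M k) (cod M (z k)) := by
  refine (h t).trans ?_
  constructor
  · rintro ⟨h1, k, v, h2, h3⟩
    obtain ⟨a, rfl⟩ := (mem_graph z t).1 h1
    rw [isOPair_iff] at h3
    obtain ⟨h4, h5⟩ := opair_inj h3
    subst h4
    obtain ⟨b, hb, hb'⟩ := mem_codN.1 h2
    rw [Cl.inj hb'] at hb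
    exact ⟨a, hb, rfl⟩
  · rintro ⟨k, hk, rfl⟩
    exact ⟨(mem_graph z _).2 ⟨k, rfl⟩, _, _, mem_codN.2 ⟨k, hk, rfl⟩, isOPair_iff.2 rfl⟩

theorem restr_congr {z z' : Re M} {n : N M} {q : M} (h : IsRestr ZFM.E q (graph z) (cod M n))
    (hzz : ∀ k, k < n → z k = z' k) : IsRestr ZFM.E q (graph z') (cod M n) := by
  obtain ⟨q', hq'⟩ := exists_restr (graph z') (cod M n)
  have : q = q' := mem_ext fun t => by
    rw [restr_mem h, restr_mem hq']
    constructor
    · rintro ⟨k, hk, rfl⟩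
      exact ⟨k, hk, by rw [hzz k hk]⟩
    · rintro ⟨k, hk, rfl⟩
      exact ⟨k, hk, by rw [hzz k hk]⟩
  rw [this]
  exact hq'

theorem restr_isFn {z : Re M} {n : N M} {q : M} (h : IsRestr ZFM.E q (graph z) (cod M n)) :
    IsFn ZFM.E q (cod M n) (om M).val := by
  constructor
  · intro t ht
    obtain ⟨k, hk, rfl⟩ := (restr_mem h t).1 ht
    exact ⟨_, _, mem_codN.2 ⟨k, hk, rfl⟩, mem_om.2 ⟨z k, rfl⟩, isOPair_iff.2 rfl⟩
  · intro x hx
    obtain ⟨k, hk, rfl⟩ := mem_codN.1 hx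
    refine ⟨cod M (z k), ⟨_, isOPair_iff.2 rfl, (restr_mem h _).2 ⟨k, hk, rfl⟩⟩, ?_⟩
    rintro y ⟨t, ht, htq⟩
    rw [isOPair_iff] at ht
    obtain ⟨a, ha, hat⟩ := (restr_mem h _).1 htq
    rw [ht] at hat
    obtain ⟨h1, h2⟩ := opair_inj hat
    rw [h2, Cl.inj h1]

theorem exists_g {f : M} (hf : IsStrat ZFM.E (om M).val f) :
    ∃ g : Re M × N M → N M, IF M g ∧
      (∀ (z : Re M) (n : N M) (q b : M), IsRestr ZFM.E q (graph z) (cod M n) →
        Apl ZFM.E f q b → b = cod M (g (z, n))) ∧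
      ∀ (z z' : Re M) (n : N M), (∀ k, k < n → z k = z' k) → g (z, n) = g (z', n) := by
  have hp : IF M (fun q : (Re M × N M) × N M => ∃ r : M,
      IsRestr ZFM.E r (Cl.code q.1.1 : M) (Cl.code q.1.2 : M) ∧
        Apl ZFM.E f r (Cl.code q.2 : M)) := by
    unfold IsRestr Apl IsOPair IsUPair
    fun_prop
  obtain ⟨g, hg, hg'⟩ := exists_of_unique (M := M) (α := Re M × N M) (β := N M)
    (p := fun q b => ∃ r : M,
      IsRestr ZFM.E r (Cl.code q.1 : M) (Cl.code q.2 : M) ∧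
        Apl ZFM.E f r (Cl.code b : M)) hp (by
      rintro ⟨z, n⟩
      obtain ⟨r, hr⟩ := exists_restr (M := M) (graph z) (cod M n)
      obtain ⟨v, hv, hav, hu⟩ := hf (cod M n) r (mem_om.2 ⟨n, rfl⟩) (restr_isFn hr)
      obtain ⟨b, rfl⟩ := mem_om.1 hv
      refine ⟨b, ⟨r, hr, hav⟩, ?_⟩
      rintro b' ⟨r', hr', hb'⟩
      have : r' = r := restr_unique hr' hr
      rw [this] at hb'
      exact Cl.inj (hu _ hb'))
  have key : ∀ (z : Re M) (n : N M) (q b : M), IsRestr ZFM.E q (graph z) (cod M n) →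
        Apl ZFM.E f q b → b = cod M (g (z, n)) := by
    intro z n q b hq hb
    obtain ⟨v, hv, hav, hu⟩ := hf (cod M n) q (mem_om.2 ⟨n, rfl⟩) (restr_isFn hq)
    obtain ⟨r, hr, hgr⟩ := hg' (z, n)
    have : r = q := restr_unique hr hq
    rw [this] at hgr
    rw [hu _ hb]
    exact (hu _ hgr).symm
  refine ⟨g, hg, key, ?_⟩
  intro z z' n hzz
  obtain ⟨r, hr, hgr⟩ := hg' (z, n)
  exact Cl.inj (key z' n r _ (restr_congr hr hzz) hgr)

end T1

/-- The typed form of AD follows from AD in the model. -/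
theorem ad_of_ADet (h : ADet (ZFM.E (M := M))) : AD M := by
  refine ⟨fun A => ?_⟩
  have hA : IF M (fun z : Re M => A.toFun (T1.ev z, T1.od z)) := by fun_prop
  obtain ⟨a, ha⟩ := IsSet.sub (Ob.set (M := M) (α := Re M)) (IF_prop_iff.1 hA)
    (fun x ⟨z, hz, _⟩ => ⟨z, hz⟩)
  have hmem : ∀ x y : Re M, isin (graph (T1.mg x y)) a ↔ A.toFun (x, y) := by
    intro x y
    have e1 : T1.ev (T1.mg x y) = x :=
      IFun.ext fun n => T1.mg_dbl x y n
    have e2 : T1.od (T1.mg x y) = y :=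
      IFun.ext fun n => T1.mg_sc x y n
    rw [ha]
    constructor
    · rintro ⟨z, hz, hAz⟩
      have : z = T1.mg x y := Cl.inj (M := M) hz
      subst this
      rw [e1, e2] at hAz
      exact hAz
    · intro hxy
      refine ⟨T1.mg x y, rfl, ?_⟩
      rw [e1, e2]
      exact hxy
  rcases h (om M).val T1.isOmega_om a with ⟨f, hf, hwin⟩ | ⟨f, hf, hwin⟩
  · left
    obtain ⟨g, hg, hg1, hg2⟩ := T1.exists_g hf
    have hG : IF M (fun q : Re M × Re M × N M => g (T1.mg q.1 q.2.1, T1.dbl q.2.2)) :=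
      hg.comp (g := fun q : Re M × Re M × N M => (T1.mg q.1 q.2.1, T1.dbl q.2.2)) (by fun_prop)
    obtain ⟨S, hS, hSe⟩ := T1.rec_sol (fun q => g (T1.mg q.1 q.2.1, T1.dbl q.2.2)) hG
      (fun u u' v n huu => hg2 _ _ _ (T1.mg_loc huu fun _ _ => rfl))
    have hloc := T1.sol_loc (G := fun q => g (T1.mg q.1 q.2.1, T1.dbl q.2.2)) hSe
      (fun n => n) (by fun_prop) (fun n => (N.lt_sc_self n).le)
      (fun u u' v v' n huu hvv => hg2 _ _ _ (T1.mg_loc huu hvv))
    obtain ⟨σ, hσ⟩ := T1.code S hS (fun n => n) (by fun_prop) (fun n m h => h)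
      (fun v v' n => hloc v v' n)
    refine ⟨σ, fun y => ?_⟩
    have hap : ap1 σ y = S y := IFun.ext fun n => hσ y n
    rw [hap, ← hmem]
    refine hwin _ (T1.isFn_graph _) ?_
    intro n q v hn hev hq hv
    obtain ⟨m, rfl⟩ := T1.mem_om.1 hn
    obtain ⟨k, rfl | rfl⟩ := T1.parity m
    · have h1 := hg1 _ _ _ _ hq hv
      refine T1.apl_graph.2 ⟨T1.dbl k, rfl, ?_⟩
      rw [h1, T1.mg_dbl, hSe]
    · exact (T1.not_isEvn k hev).elim
  · right
    obtain ⟨g, hg, hg1, hg2⟩ := T1.exists_g hf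
    have hG : IF M (fun q : Re M × Re M × N M => g (T1.mg q.2.1 q.1, sc (T1.dbl q.2.2))) :=
      hg.comp (g := fun q : Re M × Re M × N M => (T1.mg q.2.1 q.1, sc (T1.dbl q.2.2)))
        (by fun_prop)
    obtain ⟨S, hS, hSe⟩ := T1.rec_sol (fun q => g (T1.mg q.2.1 q.1, sc (T1.dbl q.2.2))) hG
      (fun u u' v n huu => hg2 _ _ _ (T1.mg_loc' (fun _ _ => rfl) huu))
    have hloc := T1.sol_loc (G := fun q => g (T1.mg q.2.1 q.1, sc (T1.dbl q.2.2))) hSe
      (fun n => sc n) (by fun_prop) (fun n => (N.lt_sc_self (sc n)).le)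
      (fun u u' v v' n huu hvv => hg2 _ _ _ (T1.mg_loc' hvv huu))
    obtain ⟨τ, hτ⟩ := T1.code S hS (fun n => sc n) (by fun_prop) (fun n m h => N.sc_inj h)
      (fun v v' n => hloc v v' n)
    refine ⟨τ, fun x => ?_⟩
    have hap : ap2 τ x = S x := IFun.ext fun n => hτ x n
    rw [hap, ← hmem]
    refine hwin _ (T1.isFn_graph _) ?_
    intro n q v hn hev hq hv
    obtain ⟨m, rfl⟩ := T1.mem_om.1 hn
    obtain ⟨k, rfl | rfl⟩ := T1.parity m
    · exact (hev (T1.isEvn_dbl k)).elim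
    · have h1 := hg1 _ _ _ _ hq hv
      refine T1.apl_graph.2 ⟨sc (T1.dbl k), rfl, ?_⟩
      rw [h1, T1.mg_sc, hSe]

end Pool.Agent.Helper48.MG
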